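import Mathlib

set_option autoImplicit false

/-!
# Definitions for the spectral radius problem for odd wheels
-/

namespace Pool.Agent.Lib_MP_65a48b_co

open SimpleGraph

/-- The join `G ∨ H`: the disjoint union together with all edges between `G` and `H`. -/
def join {V W : Type*} (G : SimpleGraph V) (H : SimpleGraph W) : SimpleGraph (V ⊕ W) :=
  (G ⊕g H) ⊔ completeBipartiteGraph V W

/-- The wheel `W_t = K_1 ∨ C_{t-1}` on `t` vertices. -/
def wheel (t : ℕ) : SimpleGraph (Fin 1 ⊕ Fin (t - 1)) :=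
  join (⊤ : SimpleGraph (Fin 1)) (cycleGraph (t - 1))

/-- The graph `S^{1,l}_{n,k} = K_l ∨ ((K_{k-l} ∨ (n-k-1) K_1) ∪ K_1)`. -/
def S1 (l n k : ℕ) : SimpleGraph (Fin l ⊕ ((Fin (k - l) ⊕ Fin (n - k - 1)) ⊕ Fin 1)) :=
  join (⊤ : SimpleGraph (Fin l))
    ((join (⊤ : SimpleGraph (Fin (k - l))) (⊥ : SimpleGraph (Fin (n - k - 1)))) ⊕g
      (⊤ : SimpleGraph (Fin 1)))

open Classical in
/-- `λ(G)`: the largest eigenvalue of the adjacency matrix of the finite graph `G`. -/
noncomputable def lam {V : Type*} [Fintype V] (G : SimpleGraph V) : ℝ :=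
  sSup {μ : ℝ | ∃ v : V → ℝ, v ≠ 0 ∧ (G.adjMatrix ℝ).mulVec v = μ • v}

/-- `G` has no isolated vertex. -/
def NoIsolated {V : Type*} (G : SimpleGraph V) : Prop := ∀ v, ∃ w, G.Adj v w

/-! ### Basic lemmas -/

section join
variable {V W : Type*} (G : SimpleGraph V) (H : SimpleGraph W)

@[simp] lemma join_inl_inl (v v' : V) : (join G H).Adj (Sum.inl v) (Sum.inl v') ↔ G.Adj v v' := by
  simp [join]

@[simp] lemma join_inr_inr (w w' : W) : (join G H).Adj (Sum.inr w) (Sum.inr w') ↔ H.Adj w w' := by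
  simp [join]

@[simp] lemma join_inl_inr (v : V) (w : W) : (join G H).Adj (Sum.inl v) (Sum.inr w) := by
  simp [join]

@[simp] lemma join_inr_inl (v : V) (w : W) : (join G H).Adj (Sum.inr w) (Sum.inl v) := by
  simp [join]

end join

open Classical in
/-- Collatz–Wielandt upper bound for real eigenvalues. -/
lemma eigenvalue_le {V : Type*} [Fintype V] (G : SimpleGraph V) (x : V → ℝ) (hx : ∀ v, 0 < x v)
    (μ : ℝ) (hμ : ∀ v, (G.adjMatrix ℝ).mulVec x v ≤ μ * x v) (ν : ℝ) (y : V → ℝ) (hy : y ≠ 0)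
    (hν : (G.adjMatrix ℝ).mulVec y = ν • y) : ν ≤ μ := by
  obtain ⟨v0, hv0⟩ : ∃ v, y v ≠ 0 := by
    by_contra h
    push Not at h
    exact hy (funext h)
  obtain ⟨u, -, hu⟩ := Finset.exists_max_image Finset.univ (fun v => |y v| / x v)
    ⟨v0, Finset.mem_univ v0⟩
  set c := |y u| / x u with hc
  have hcpos : 0 < c := by
    have h1 := hu v0 (Finset.mem_univ v0)
    have h2 : 0 < |y v0| / x v0 := div_pos (abs_pos.mpr hv0) (hx v0)
    linarith
  have hyc : ∀ v, |y v| ≤ c * x v := by
    intro v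
    have := hu v (Finset.mem_univ v)
    rwa [div_le_iff₀ (hx v)] at this
  have hyu : |y u| = c * x u := by
    rw [hc, div_mul_cancel₀ _ (hx u).ne']
  have h1 : |ν * y u| ≤ c * (μ * x u) := by
    have h2 : ν * y u = (G.adjMatrix ℝ).mulVec y u := by rw [hν]; rfl
    rw [h2]
    calc |(G.adjMatrix ℝ).mulVec y u| = |∑ v, (G.adjMatrix ℝ) u v * y v| := rfl
      _ ≤ ∑ v, |(G.adjMatrix ℝ) u v * y v| := Finset.abs_sum_le_sum_abs _ _
      _ ≤ ∑ v, (G.adjMatrix ℝ) u v * (c * x v) := by
          refine Finset.sum_le_sum ?_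
          intro v _
          have h0 : 0 ≤ (G.adjMatrix ℝ) u v := by
            rw [adjMatrix_apply]; split_ifs <;> norm_num
          rw [abs_mul, abs_of_nonneg h0]
          exact mul_le_mul_of_nonneg_left (hyc v) h0
      _ = c * (G.adjMatrix ℝ).mulVec x u := by
          change _ = c * ∑ v, (G.adjMatrix ℝ) u v * x v
          rw [Finset.mul_sum]
          refine Finset.sum_congr rfl ?_
          intro v _
          ring
      _ ≤ c * (μ * x u) := mul_le_mul_of_nonneg_left (hμ u) hcpos.le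
  rw [abs_mul, hyu] at h1
  have h3 : |ν| * (c * x u) ≤ μ * (c * x u) := by linarith
  have h4 : |ν| ≤ μ := le_of_mul_le_mul_right h3 (mul_pos hcpos (hx u))
  exact (le_abs_self ν).trans h4

open Classical in
lemma lam_le {V : Type*} [Fintype V] (G : SimpleGraph V) (x : V → ℝ) (hx : ∀ v, 0 < x v)
    (μ : ℝ) (hμ0 : 0 ≤ μ) (hμ : ∀ v, (G.adjMatrix ℝ).mulVec x v ≤ μ * x v) : lam G ≤ μ := by
  refine Real.sSup_le ?_ hμ0
  rintro ν ⟨y, hy, hν⟩
  exact eigenvalue_le G x hx μ hμ ν y hy hν

open Classical in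
lemma bddAbove_eigs {V : Type*} [Fintype V] (G : SimpleGraph V) :
    BddAbove {μ : ℝ | ∃ v : V → ℝ, v ≠ 0 ∧ (G.adjMatrix ℝ).mulVec v = μ • v} := by
  refine ⟨Fintype.card V, ?_⟩
  rintro ν ⟨y, hy, hν⟩
  refine eigenvalue_le G (fun _ => 1) (fun _ => one_pos) _ ?_ ν y hy hν
  intro v
  change ∑ w, (G.adjMatrix ℝ) v w * 1 ≤ _
  rw [mul_one]
  calc ∑ w, (G.adjMatrix ℝ) v w * 1 ≤ ∑ _w : V, (1 : ℝ) := by
        refine Finset.sum_le_sum ?_
        intro w _
        rw [adjMatrix_apply]; split_ifs <;> norm_num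
    _ = Fintype.card V := by simp

open Classical in
lemma le_lam {V : Type*} [Fintype V] (G : SimpleGraph V) (μ : ℝ) (v : V → ℝ) (hv : v ≠ 0)
    (h : (G.adjMatrix ℝ).mulVec v = μ • v) : μ ≤ lam G :=
  le_csSup (bddAbove_eigs G) ⟨v, hv, h⟩

/-- The perfect matching `a K_2` on `2a` vertices. -/
def match2 (a : ℕ) : SimpleGraph (Fin a × Bool) where
  Adj p q := q = (p.1, !p.2)
  symm := ⟨by rintro ⟨i, x⟩ ⟨j, y⟩ h; simp at h ⊢; obtain ⟨rfl, rfl⟩ := h; simp⟩
  loopless := ⟨by rintro ⟨i, x⟩ h; simp at h⟩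

@[simp] lemma match2_adj (a : ℕ) (p q : Fin a × Bool) :
    (match2 a).Adj p q ↔ q = (p.1, !p.2) := Iff.rfl

/-- The join of two perfect matchings has no wheel on five vertices. -/
lemma match2_join_free (a b : ℕ) : (wheel 5).Free (join (match2 a) (match2 b)) := by
  rintro ⟨f⟩
  have hinj := f.injective'
  have hadj : ∀ i : Fin 4, (join (match2 a) (match2 b)).Adj (f.toHom (Sum.inl 0))
      (f.toHom (Sum.inr i)) := fun i => f.toHom.map_rel (by simp [wheel])
  have hcyc : ∀ i : Fin 4, (join (match2 a) (match2 b)).Adj (f.toHom (Sum.inr i))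
      (f.toHom (Sum.inr (i + 1))) := by
    intro i
    refine f.toHom.map_rel ?_
    simp only [wheel, join_inr_inr]
    have h4 : ∀ i : Fin 4, (cycleGraph 4).Adj i (i + 1) := by
      intro i
      rw [cycleGraph_adj]
      revert i
      decide
    exact h4 i
  have hne : ∀ i j : Fin 4, i ≠ j → f.toHom (Sum.inr i) ≠ f.toHom (Sum.inr j) := by
    intro i j hij h
    exact hij (Sum.inr.inj (hinj h))
  have hadd : ∀ i : Fin 4, i + 1 + 1 = i + 2 := by decide
  have key : ∀ i : Fin 4, ¬ (∃ x y z, f.toHom (Sum.inr i) = Sum.inl x ∧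
      f.toHom (Sum.inr (i + 1)) = Sum.inl y ∧ f.toHom (Sum.inr (i + 2)) = Sum.inl z) := by
    rintro i ⟨x, y, z, hx, hy, hz⟩
    have h1 := (hcyc i).symm
    have h2 := hcyc (i + 1)
    rw [hadd i] at h2
    rw [hx, hy, join_inl_inl, match2_adj] at h1
    rw [hy, hz, join_inl_inl, match2_adj] at h2
    refine hne i (i + 2) ?_ ?_
    · fin_cases i <;> decide
    · rw [hx, hz, h1, h2]
  have key' : ∀ i : Fin 4, ¬ (∃ x y z, f.toHom (Sum.inr i) = Sum.inr x ∧
      f.toHom (Sum.inr (i + 1)) = Sum.inr y ∧ f.toHom (Sum.inr (i + 2)) = Sum.inr z) := by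
    rintro i ⟨x, y, z, hx, hy, hz⟩
    have h1 := (hcyc i).symm
    have h2 := hcyc (i + 1)
    rw [hadd i] at h2
    rw [hx, hy, join_inr_inr, match2_adj] at h1
    rw [hy, hz, join_inr_inr, match2_adj] at h2
    refine hne i (i + 2) ?_ ?_
    · fin_cases i <;> decide
    · rw [hx, hz, h1, h2]
  -- at most one rim vertex lies on the side of the hub
  rcases hh : f.toHom (Sum.inl 0) with h | h
  · have huniq : ∀ i j : Fin 4, i ≠ j → ∀ x y, f.toHom (Sum.inr i) = Sum.inl x →
        f.toHom (Sum.inr j) = Sum.inl y → False := by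
      intro i j hij x y hx hy
      have h1 := hadj i
      have h2 := hadj j
      rw [hh, hx, join_inl_inl, match2_adj] at h1
      rw [hh, hy, join_inl_inl, match2_adj] at h2
      exact hne i j hij (by rw [hx, hy, h1, h2])
    rcases h0 : f.toHom (Sum.inr 0) with x0 | x0 <;>
    rcases h1 : f.toHom (Sum.inr 1) with x1 | x1 <;>
    rcases h2 : f.toHom (Sum.inr 2) with x2 | x2 <;>
    rcases h3 : f.toHom (Sum.inr 3) with x3 | x3 <;>
    first
    | exact huniq 0 1 (by decide) _ _ h0 h1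
    | exact huniq 0 2 (by decide) _ _ h0 h2
    | exact huniq 0 3 (by decide) _ _ h0 h3
    | exact huniq 1 2 (by decide) _ _ h1 h2
    | exact huniq 1 3 (by decide) _ _ h1 h3
    | exact huniq 2 3 (by decide) _ _ h2 h3
    | exact key' 0 ⟨_, _, _, h0, h1, h2⟩
    | exact key' 1 ⟨_, _, _, h1, h2, h3⟩
    | exact key' 2 ⟨_, _, _, h2, h3, h0⟩
    | exact key' 3 ⟨_, _, _, h3, h0, h1⟩
  · have huniq : ∀ i j : Fin 4, i ≠ j → ∀ x y, f.toHom (Sum.inr i) = Sum.inr x →
        f.toHom (Sum.inr j) = Sum.inr y → False := by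
      intro i j hij x y hx hy
      have h1 := hadj i
      have h2 := hadj j
      rw [hh, hx, join_inr_inr, match2_adj] at h1
      rw [hh, hy, join_inr_inr, match2_adj] at h2
      exact hne i j hij (by rw [hx, hy, h1, h2])
    rcases h0 : f.toHom (Sum.inr 0) with x0 | x0 <;>
    rcases h1 : f.toHom (Sum.inr 1) with x1 | x1 <;>
    rcases h2 : f.toHom (Sum.inr 2) with x2 | x2 <;>
    rcases h3 : f.toHom (Sum.inr 3) with x3 | x3 <;>
    first
    | exact huniq 0 1 (by decide) _ _ h0 h1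
    | exact huniq 0 2 (by decide) _ _ h0 h2
    | exact huniq 0 3 (by decide) _ _ h0 h3
    | exact huniq 1 2 (by decide) _ _ h1 h2
    | exact huniq 1 3 (by decide) _ _ h1 h3
    | exact huniq 2 3 (by decide) _ _ h2 h3
    | exact key 0 ⟨_, _, _, h0, h1, h2⟩
    | exact key 1 ⟨_, _, _, h1, h2, h3⟩
    | exact key 2 ⟨_, _, _, h2, h3, h0⟩
    | exact key 3 ⟨_, _, _, h3, h0, h1⟩

lemma sum_adj_match2 (a : ℕ) (p : Fin a × Bool) (c : ℝ) [DecidableRel (match2 a).Adj] :
    ∑ q : Fin a × Bool, (if (match2 a).Adj p q then (1 : ℝ) else 0) * c = c := by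
  classical
  have : ∀ q : Fin a × Bool, (if (match2 a).Adj p q then (1 : ℝ) else 0) * c =
      if q = (p.1, !p.2) then c else 0 := by
    intro q
    by_cases h : q = (p.1, !p.2)
    · have h' : (match2 a).Adj p q := h
      simp [h]
    · have h' : ¬ (match2 a).Adj p q := h
      rw [if_neg h', if_neg h, zero_mul]
  simp_rw [this]
  simp

open Classical in
/-- `1 + √(4ab)` is an eigenvalue of the join of perfect matchings on `2a` and `2b` vertices. -/
lemma le_lam_match2_join (a b : ℕ) (ha : 0 < a) (hb : 0 < b) :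
    1 + √(4 * a * b : ℝ) ≤ lam (join (match2 a) (match2 b)) := by
  have ha0 : (0 : ℝ) < a := by exact_mod_cast ha
  have hb0 : (0 : ℝ) < b := by exact_mod_cast hb
  refine le_lam _ _ (Sum.elim (fun _ => √(b : ℝ)) (fun _ => √(a : ℝ))) ?_ ?_
  · intro h
    have := congrFun h (Sum.inl (⟨0, ha⟩, true))
    simp only [Sum.elim_inl, Pi.zero_apply] at this
    exact (Real.sqrt_pos.mpr hb0).ne' this
  · have hab : √(4 * a * b : ℝ) = 2 * (√(a : ℝ) * √(b : ℝ)) := by
      rw [show (4 * a * b : ℝ) = 2 ^ 2 * (a * b) by ring, Real.sqrt_mul (by positivity),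
        Real.sqrt_sq (by norm_num), Real.sqrt_mul ha0.le]
    have h1 : √(a : ℝ) * √(a : ℝ) = a := Real.mul_self_sqrt ha0.le
    have h2 : √(b : ℝ) * √(b : ℝ) = b := Real.mul_self_sqrt hb0.le
    funext p
    change ∑ q, ((join (match2 a) (match2 b)).adjMatrix ℝ) p q * _ = _
    rw [Fintype.sum_sum_type]
    rcases p with p | p
    · simp only [adjMatrix_apply, join_inl_inl, join_inl_inr, Sum.elim_inl, Sum.elim_inr, if_true,
        Pi.smul_apply, smul_eq_mul]
      rw [sum_adj_match2]
      simp only [one_mul, Finset.sum_const, Finset.card_univ, Fintype.card_prod, Fintype.card_fin,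
        Fintype.card_bool, nsmul_eq_mul, hab]
      push_cast
      linear_combination (2 * √(a : ℝ)) * h2.symm
    · simp only [adjMatrix_apply, join_inr_inr, join_inr_inl, Sum.elim_inl, Sum.elim_inr, if_true,
        Pi.smul_apply, smul_eq_mul]
      rw [sum_adj_match2]
      simp only [one_mul, Finset.sum_const, Finset.card_univ, Fintype.card_prod, Fintype.card_fin,
        Fintype.card_bool, nsmul_eq_mul, hab]
      push_cast
      linear_combination (2 * √(b : ℝ)) * h1.symm

/-- The number of edges of the join of perfect matchings on `2a` and `2b` vertices. -/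
lemma ncard_match2_join (a b : ℕ) :
    (join (match2 a) (match2 b)).edgeSet.ncard = 4 * a * b + a + b := by
  classical
  have h := (join (match2 a) (match2 b)).sum_degrees_eq_twice_card_edges
  have hl : ∀ p, (join (match2 a) (match2 b)).degree (Sum.inl p) = 1 + 2 * b := by
    intro p
    have h1 : (join (match2 a) (match2 b)).neighborFinset (Sum.inl p) =
        insert (Sum.inl (p.1, !p.2)) (Finset.univ.map ⟨Sum.inr, Sum.inr_injective⟩) := by
      ext q
      rcases q with q | q
      · simp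
      · simp
    rw [← card_neighborFinset_eq_degree, h1, Finset.card_insert_of_notMem (by simp),
      Finset.card_map, Finset.card_univ]
    simp
    ring
  have hr : ∀ p, (join (match2 a) (match2 b)).degree (Sum.inr p) = 1 + 2 * a := by
    intro p
    have h1 : (join (match2 a) (match2 b)).neighborFinset (Sum.inr p) =
        insert (Sum.inr (p.1, !p.2)) (Finset.univ.map ⟨Sum.inl, Sum.inl_injective⟩) := by
      ext q
      rcases q with q | q
      · simp
      · simp
    rw [← card_neighborFinset_eq_degree, h1, Finset.card_insert_of_notMem (by simp),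
      Finset.card_map, Finset.card_univ]
    simp
    ring
  rw [Fintype.sum_sum_type] at h
  simp only [hl, hr, Finset.sum_const, Finset.card_univ, Fintype.card_prod, Fintype.card_fin,
    Fintype.card_bool, smul_eq_mul] at h
  have h2 : (join (match2 a) (match2 b)).edgeSet.ncard =
      (join (match2 a) (match2 b)).edgeFinset.card := by
    rw [← coe_edgeFinset, Set.ncard_coe_finset]
  rw [h2]
  nlinarith [h]

lemma noIsolated_match2_join (a b : ℕ) : NoIsolated (join (match2 a) (match2 b)) := by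
  rintro (p | p)
  · exact ⟨Sum.inl (p.1, !p.2), by simp⟩
  · exact ⟨Sum.inr (p.1, !p.2), by simp⟩

end Pool.Agent.Lib_MP_65a48b_co
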